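import Pool.Agent.H52.Afsr3

namespace Pool.Agent.Results.MP_cc6759_lc.Half

open Finset Module Pool.Agent.H52

/-- The AFSR with rational pi-adic number `f / g` outputs the digit sequence `t`. -/
def Outputs {R : Type} [CommRing R] (π : R) {N : ℕ} (f g : R) (t : ℕ → Fin N) : Prop :=
  ∀ m, π ^ m ∣ f - g * ∑ i ∈ range m, ((t i : ℕ) : R) * π ^ i

/-- Least size of an AFSR whose first `n` outputs are `a`. -/
noncomputable def finComplexity {R : Type} [CommRing R] (π : R) (φ : R → ℝ) {N n : ℕ}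
    (a : Fin n → Fin N) : ℝ :=
  sInf {s | ∃ f g : R, IsUnit (Ideal.Quotient.mk (Ideal.span {π}) g) ∧
    (∃ t : ℕ → Fin N, (∀ i : Fin n, t i = a i) ∧ Outputs π f g t) ∧ s = max (φ f) (φ g)}

/-- Average over all digit strings of length `n`. -/
noncomputable def avgFin {R : Type} [CommRing R] (π : R) (φ : R → ℝ) (N n : ℕ) : ℝ :=
  (∑ a : Fin n → Fin N, finComplexity π φ a) / (N : ℝ) ^ n

/-- Size function of case (i). -/
noncomputable def phi1 {R : Type} [CommRing R] (b : Basis (Fin 2) ℤ R) (N : ℕ) (x : R) : ℝ :=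
  Real.logb N ((b.repr x 0 : ℝ) ^ 2 + N * (b.repr x 1 : ℝ) ^ 2)

/-- Size function of case (ii). -/
noncomputable def phi2 {R : Type} [CommRing R] {d : ℕ} (b : Basis (Fin d) ℤ R) (N : ℕ) (x : R) : ℝ :=
  sSup {s | ∃ i : Fin d, b.repr x i ≠ 0 ∧ s = d * Real.logb N |(b.repr x i : ℝ)| + (i : ℕ)}

lemma attain {R : Type} [CommRing R] {d : ℕ} (b : Basis (Fin d) ℤ R) (hd : 0 < d) (x : R) :
    ∃ i, (Afsr.nm b x : ℝ) = |(b.repr x i : ℝ)| ∧
      ∀ j, |(b.repr x j : ℝ)| ≤ |(b.repr x i : ℝ)| := by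
  obtain ⟨i, -, hi⟩ := exists_mem_eq_sup univ ⟨⟨0, hd⟩, mem_univ _⟩ fun i => (b.repr x i).natAbs
  have e : ∀ j, |(b.repr x j : ℝ)| = (b.repr x j).natAbs := fun j => by simp
  refine ⟨i, by rw [e]; exact congrArg _ hi, fun j => ?_⟩
  rw [e, e, ← hi]
  exact Nat.cast_le.mpr (Afsr.le_nm b x j)

theorem result :
    (∀ (R : Type) [CommRing R] [IsDomain R] (π : R) (N : ℕ) (b : Basis (Fin 2) ℤ R),
      2 ≤ N → b 0 = 1 → b 1 = π → π ^ 2 = -(N : R) →
      ∃ C : ℝ, ∀ n : ℕ, |avgFin π (phi1 b N) N n - n / 2| ≤ C) ∧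
    (∀ (R : Type) [CommRing R] [IsDomain R] (π : R) (N d : ℕ) (b : Basis (Fin d) ℤ R),
      2 ≤ N → 1 ≤ d → (∀ i, b i = π ^ (i : ℕ)) → π ^ d = (N : R) →
      ∃ C : ℝ, ∀ n : ℕ, |avgFin π (phi2 b N) N n - n / 2| ≤ C) := by
  constructor
  · intro R _ _ π N b hN h0 h1 h
    refine Afsr.main b (by simp [Fin.forall_fin_two, h0, h1]) two_pos hN (.inr h) _ 2 fun x => ?_
    have N2 : (2 : ℝ) ≤ N := by exact_mod_cast hN
    have l0 : 0 < Real.log N := Real.log_pos (by linarith)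
    obtain ⟨i, e, hi⟩ := attain b two_pos x
    rw [e, phi1, Real.logb, ← sub_div, abs_div, abs_of_pos l0, div_le_iff₀ l0, Real.log_abs,
      ← Real.log_pow]
    have s0 := sq_le_sq.mpr (hi 0)
    have s1 := sq_le_sq.mpr (hi 1)
    have s2 : (b.repr x i : ℝ) ^ 2 ≤ (b.repr x 0 : ℝ) ^ 2 + N * (b.repr x 1 : ℝ) ^ 2 := by
      fin_cases i <;> simp <;> nlinarith [sq_nonneg (b.repr x 0 : ℝ), sq_nonneg (b.repr x 1 : ℝ)]
    generalize (b.repr x i : ℝ) = z, (b.repr x 0 : ℝ) = u, (b.repr x 1 : ℝ) = v at *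
    by_cases z0 : z = 0
    · rw [show u ^ 2 + N * v ^ 2 = z ^ 2 by subst z0; nlinarith [sq_nonneg u, sq_nonneg v]]
      simpa using l0.le
    have z1 : 0 < z ^ 2 := by positivity
    have s3 := Real.log_le_log z1 s2
    have s4 := Real.log_le_log (z1.trans_le s2) (show _ ≤ (N : ℝ) ^ 2 * z ^ 2 by
      nlinarith [mul_le_mul_of_nonneg_left s1 (show (0 : ℝ) ≤ N by linarith),
        mul_le_mul_of_nonneg_right (show (N : ℝ) + 1 ≤ N ^ 2 by nlinarith) z1.le])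
    rw [Real.log_mul (by positivity) z1.ne', Real.log_pow] at s4
    push_cast at s4
    exact abs_le.mpr ⟨by linarith, by linarith⟩
  intro R _ _ π N d b hN hd hb h
  refine Afsr.main b hb hd hN (.inl h) _ d fun x => ?_
  have N2 : (1 : ℝ) < N := by exact_mod_cast hN
  obtain ⟨i, e, hi⟩ := attain b hd x
  rw [e, phi2, mul_div_assoc, Real.log_div_log]
  by_cases z0 : b.repr x i = 0
  · have : ∀ j, b.repr x j = 0 := fun j => by simpa [z0] using hi j
    simp [this]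
  generalize hS : {s | ∃ i : Fin d, b.repr x i ≠ 0 ∧
    s = d * Real.logb N |(b.repr x i : ℝ)| + (i : ℕ)} = S
  have s1 : d * Real.logb N |(b.repr x i : ℝ)| + (i : ℕ) ∈ S := hS ▸ ⟨i, z0, rfl⟩
  have s2 : d * Real.logb N |(b.repr x i : ℝ)| + d ∈ upperBounds S := by
    rw [← hS]
    rintro _ ⟨j, j0, rfl⟩
    exact add_le_add (mul_le_mul_of_nonneg_left (Real.logb_le_logb_of_le N2 (by simpa using j0)
      (hi j)) d.cast_nonneg) (Nat.cast_le.mpr j.2.le)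
  have s3 : (0 : ℝ) ≤ (i : ℕ) := by positivity
  have s4 : (0 : ℝ) ≤ d := by positivity
  exact abs_le.mpr ⟨by linarith [le_csSup ⟨_, s2⟩ s1], by linarith [csSup_le ⟨_, s1⟩ s2]⟩

end Pool.Agent.Results.MP_cc6759_lc.Half
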